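import Mathlib
import Pool.Agent.R492.CF.Base

/-!
# The Comfort–Frolik preorder differs from the Comfort and the Rudin–Frolik preorders
-/

set_option autoImplicit false

namespace Pool.Agent.Results.MP_254ca6_gt.ProperInclusions

open Set Topology Filter Pool.Agent.R492.CF

theorem infinite_of_mem {u : βω} (hu : ¬ Principal u) {A : Set ℕ} (hA : A ∈ u) : A.Infinite := by
  intro hfin
  apply hu
  obtain ⟨n, -, hn⟩ := (Ultrafilter.finite_biUnion_mem_iff (f := u) (is := A)
    (s := fun n => ({n} : Set ℕ)) hfin).mp (by simpa using hA)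
  refine ⟨n, ?_⟩
  ext S
  rw [Ultrafilter.mem_pure]
  constructor
  · intro hS
    obtain ⟨m, hm1, hm2⟩ := u.nonempty_of_mem (inter_mem hS hn)
    rw [mem_singleton_iff] at hm2
    exact hm2 ▸ hm1
  · intro hS
    exact mem_of_superset hn (singleton_subset_iff.mpr hS)

/-- For every nonprincipal `u` there is `v` (isomorphic to the square of `u`) above `u` in the
Rudin–Frolik and Comfort preorders, but not in the Comfort–Frolik preorder. -/
theorem exists_square (u : βω) (hu : ¬ Principal u) : ∃ v, LeRF u v ∧ LeC u v ∧ ¬ LeCF u v := by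
  let e : ℕ → ℕ → ℕ := fun n m => Nat.pair n m
  let q : ℕ → ℕ := fun k => (Nat.unpair k).1
  let g : ℕ → βω := fun n => u.map (e n)
  have hqe : ∀ n m, q (e n m) = n := fun n m => by simp [q, e]
  have hsep : Function.Injective g ∧ DiscreteTopology (range g) := by
    apply discrete_of_sep (fun i => {k | q k = i})
    · intro i
      rw [Ultrafilter.mem_map]
      have : e i ⁻¹' {k | q k = i} = univ := by
        ext m; simp [hqe]
      rw [this]
      exact univ_mem
    · intro i j hj h
      rw [Ultrafilter.mem_map] at h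
      have : e j ⁻¹' {k | q k = i} = ∅ := by
        ext m; simp [hqe, hj]
      rw [this] at h
      exact u.empty_notMem h
  obtain ⟨v, hv⟩ := exists_limit g u
  have hmap : v.map q = u := by
    ext S
    rw [Ultrafilter.mem_map, mem_iff_of_tendsto hv]
    have : {i | q ⁻¹' S ∈ g i} = S := by
      ext i
      change q ⁻¹' S ∈ u.map (e i) ↔ i ∈ S
      rw [Ultrafilter.mem_map]
      by_cases hi : i ∈ S
      · have : e i ⁻¹' (q ⁻¹' S) = univ := by ext m; simp [hqe, hi]
        rw [this]
        exact ⟨fun _ => hi, fun _ => univ_mem⟩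
      · have : e i ⁻¹' (q ⁻¹' S) = ∅ := by ext m; simp [hqe, hi]
        rw [this]
        exact ⟨fun h => absurd h u.empty_notMem, fun h => absurd h hi⟩
    rw [this]
  have hRF : LeRF u v := ⟨g, hsep.1, hsep.2, hv⟩
  refine ⟨v, hRF, hmap ▸ leC_map v q, fun hCF => ?_⟩
  rcases leRF_of_inX (inX_of_leCF hCF) with h | ⟨f, hf1, hf2, hf3⟩
  · exact hu h
  · obtain ⟨p, hp⟩ := exists_disjoint_sep hf1 hf2
    have hpu : u.map p = v := map_of_leRF hf3 p hp
    have hfix : {n | (q ∘ p) n = n} ∈ u := by
      apply fixed_point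
      rw [← Ultrafilter.map_map, hpu, hmap]
    set A := {n | (q ∘ p) n = n} with hA
    have hpA : p '' A ∈ v := by
      rw [← hpu, Ultrafilter.mem_map]
      exact mem_of_superset hfix (subset_preimage_image p A)
    rw [mem_iff_of_tendsto hv] at hpA
    obtain ⟨n, hn⟩ := u.nonempty_of_mem hpA
    have hn' : e n ⁻¹' (p '' A) ∈ u := Ultrafilter.mem_map.mp hn
    obtain ⟨m, hm, m', hm', hne⟩ := (infinite_of_mem hu hn').nontrivial
    obtain ⟨a, ha, ha'⟩ := hm
    obtain ⟨b, hb, hb'⟩ := hm'
    have h1 : a = n := by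
      have h2 : q (p a) = a := ha
      rw [← h2, ha']
      exact hqe n m
    have h3 : b = n := by
      have h2 : q (p b) = b := hb
      rw [← h2, hb']
      exact hqe n m'
    apply hne
    have h4 : e n m = e n m' := by rw [← ha', ← hb', h1, h3]
    exact (Nat.pair_eq_pair.mp h4).2

theorem leCF_pure (n : ℕ) (v : βω) : LeCF (pure n) v := by
  intro X _ _ _ f _ _
  exact ⟨f n, tendsto_pure_nhds f n⟩

theorem leRF_perm (u : βω) (e : Equiv.Perm ℕ) : LeRF u (u.map e) := by
  refine ⟨fun n => pure (e n), ?_⟩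
  have h := discrete_of_sep (f := fun n => (pure (e n) : βω)) (fun i => {e i})
    (fun i => Ultrafilter.mem_pure.mpr rfl)
    (fun i j hj h => hj (e.injective (Ultrafilter.mem_pure.mp h)))
  refine ⟨h.1, h.2, ?_⟩
  have h1 : Tendsto (fun n : ℕ => (pure n : βω)) (u.map e) (𝓝 (u.map e)) :=
    Ultrafilter.tendsto_pure_self _
  exact h1

theorem leCF_perm (u : βω) (e : Equiv.Perm ℕ) : LeCF u (u.map e) := by
  intro X _ _ hv f hinj hd
  obtain ⟨x, hx⟩ := hv (f ∘ e.symm) (hinj.comp e.symm.injective) (by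
    rw [e.symm.surjective.range_comp]
    exact hd)
  refine ⟨x, ?_⟩
  have h1 : Tendsto ((f ∘ e.symm) ∘ e) u (𝓝 x) := hx
  have h2 : (f ∘ e.symm) ∘ e = f := by
    funext n; simp
  rwa [h2] at h1

theorem leRF_pure (n : ℕ) (v : βω) : LeRF (pure n) v := by
  classical
  by_cases hv : Principal v
  · obtain ⟨m, rfl⟩ := hv
    have h := leRF_perm (pure n) (Equiv.swap n m)
    rwa [Ultrafilter.map_pure, Equiv.swap_apply_left] at h
  · -- an infinite set not in `v`
    obtain ⟨g, hg, hgv⟩ : ∃ g : ℕ → ℕ, Function.Injective g ∧ (range g)ᶜ ∈ v := by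
      by_cases h : (range fun k : ℕ => 2 * k) ∈ v
      · refine ⟨fun k => 2 * k + 1, fun a b hab => by simpa using hab, ?_⟩
        refine mem_of_superset h ?_
        rintro _ ⟨k, rfl⟩ ⟨j, hj⟩
        simp only at hj
        omega
      · exact ⟨fun k => 2 * k, fun a b hab => by simpa using hab,
          Ultrafilter.compl_mem_iff_notMem.mpr h⟩
    let f : ℕ → βω := fun i => if i = n then v else pure (g i)
    have hfn : f n = v := by simp [f]
    have hfi : ∀ i, i ≠ n → f i = pure (g i) := fun i hi => by simp [f, hi]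
    have h := discrete_of_sep (f := f) (fun i => if i = n then (range g)ᶜ else {g i}) (by
        intro i
        by_cases hi : i = n
        · subst hi; rw [hfn]; simpa using hgv
        · rw [hfi i hi]; simp [hi, Ultrafilter.mem_pure]) (by
        intro i j hj
        by_cases hi : i = n
        · subst hi
          rw [hfi j hj]
          simp [Ultrafilter.mem_pure]
        · by_cases hjn : j = n
          · subst hjn
            rw [hfn]
            simp only [hi, if_false]
            intro h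
            exact absurd (infinite_of_mem hv h) (not_infinite.mpr (finite_singleton _))
          · rw [hfi j hjn]
            simp only [hi, if_false, Ultrafilter.mem_pure, mem_singleton_iff]
            exact fun h => hj (hg h))
    refine ⟨f, h.1, h.2, ?_⟩
    have h1 : Tendsto f (pure n : βω) (𝓝 (f n)) := tendsto_pure_nhds f n
    rwa [hfn] at h1

/-- An ultrafilter and its image under a map injective on a set of the ultrafilter are isomorphic. -/
theorem exists_perm (u : βω) (hu : ¬ Principal u) (p : ℕ → ℕ) (A : Set ℕ) (hA : A ∈ u)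
    (hp : InjOn p A) : ∃ e : Equiv.Perm ℕ, u.map e = u.map p := by
  classical
  have hAinf := infinite_of_mem hu hA
  -- split `A` in two infinite parts
  obtain ⟨B, hBA, hBu, hBc⟩ : ∃ B ⊆ A, B ∈ u ∧ (A \ B).Infinite := by
    let g := hAinf.natEmbedding A
    set A1 := range fun k : ℕ => (g (2 * k) : ℕ) with hA1
    have hA1A : A1 ⊆ A := by rintro _ ⟨k, rfl⟩; exact (g _).2
    have hA1inf : A1.Infinite := infinite_range_of_injective fun a b hab => by
      have := g.injective (Subtype.ext hab)
      simpa using this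
    by_cases h : A1 ∈ u
    · refine ⟨A1, hA1A, h, ?_⟩
      have hsub : (range fun k : ℕ => (g (2 * k + 1) : ℕ)) ⊆ A \ A1 := by
        rintro _ ⟨k, rfl⟩
        refine ⟨(g _).2, ?_⟩
        rintro ⟨j, hj⟩
        have := g.injective (Subtype.ext hj)
        omega
      refine Set.Infinite.mono hsub (infinite_range_of_injective fun a b hab => ?_)
      have := g.injective (Subtype.ext hab)
      simpa using this
    · refine ⟨A \ A1, sdiff_subset, inter_mem hA (Ultrafilter.compl_mem_iff_notMem.mpr h), ?_⟩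
      have : A \ (A \ A1) = A1 := by
        rw [sdiff_sdiff_right_self]
        exact inter_eq_right.mpr hA1A
      rw [this]
      exact hA1inf
  have hpB : InjOn p B := hp.mono hBA
  have h1 : (Bᶜ : Set ℕ).Infinite := hBc.mono fun x hx => hx.2
  have h2 : ((p '' B)ᶜ : Set ℕ).Infinite := by
    have h3 : p '' (A \ B) ⊆ (p '' B)ᶜ := by
      rintro _ ⟨a, ha, rfl⟩ ⟨b, hb, hab⟩
      exact ha.2 (hp (hBA hb) ha.1 hab ▸ hb)
    exact (hBc.image (hp.mono sdiff_subset)).mono h3
  have := h1.to_subtype
  have := h2.to_subtype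
  obtain ⟨e2⟩ : Nonempty (↥(Bᶜ) ≃ ↥((p '' B)ᶜ)) := nonempty_equiv_of_countable
  let e1 : B ≃ p '' B := Equiv.Set.imageOfInjOn p B hpB
  let e : Equiv.Perm ℕ := (Equiv.Set.sumCompl B).symm.trans
    ((Equiv.sumCongr e1 e2).trans (Equiv.Set.sumCompl (p '' B)))
  refine ⟨e, ?_⟩
  have he : ∀ n ∈ B, e n = p n := by
    intro n hn
    simp only [e, Equiv.trans_apply]
    rw [Equiv.Set.sumCompl_symm_apply_of_mem hn]
    rfl
  ext S
  rw [Ultrafilter.mem_map, Ultrafilter.mem_map]
  constructor
  · intro h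
    refine mem_of_superset (inter_mem h hBu) ?_
    rintro n ⟨hn1, hn2⟩
    change p n ∈ S
    rw [← he n hn2]; exact hn1
  · intro h
    refine mem_of_superset (inter_mem h hBu) ?_
    rintro n ⟨hn1, hn2⟩
    change e n ∈ S
    rw [he n hn2]; exact hn1

theorem both_iff (u v : βω) :
    (LeRF u v ∧ LeCF u v) ↔ (Principal u ∨ ∃ e : Equiv.Perm ℕ, u.map e = v) := by
  constructor
  · rintro ⟨hRF, hCF⟩
    by_cases hu : Principal u
    · exact Or.inl hu
    right
    rcases leRF_of_inX (inX_of_leCF hCF) with h | ⟨f, hf1, hf2, hf3⟩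
    · exact absurd h hu
    · obtain ⟨p, hp⟩ := exists_disjoint_sep hf1 hf2
      have hpu : u.map p = v := map_of_leRF hf3 p hp
      obtain ⟨g, hg1, hg2, hg3⟩ := hRF
      obtain ⟨q, hq⟩ := exists_disjoint_sep hg1 hg2
      have hqv : v.map q = u := map_of_leRF hg3 q hq
      have hfix : {n | (q ∘ p) n = n} ∈ u := by
        apply fixed_point
        rw [← Ultrafilter.map_map, hpu, hqv]
      obtain ⟨e, he⟩ := exists_perm u hu p _ hfix (by
        intro a ha b hb hab
        have h1 : q (p a) = a := ha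
        have h2 : q (p b) = b := hb
        rw [← h1, ← h2, hab])
      exact ⟨e, he.trans hpu⟩
  · rintro (⟨n, rfl⟩ | ⟨e, rfl⟩)
    · exact ⟨leRF_pure n v, leCF_pure n v⟩
    · exact ⟨leRF_perm u e, leCF_perm u e⟩

/-- **Answer to Q1.** (1) `≤_CF ⊆ ≤_C`. (2) For every nonprincipal `u` there is `v` with `u ≤_RF v`,
`u ≤_C v` and not `u ≤_CF v`; so `≤_CF ≠ ≤_C`, `≤_CF ≠ ≤_RF`, and `≤_RF` is not contained in `≤_CF`.
(3) `u ≤_CF v` implies that `u` is principal or `v ≤_RF u`. (4) Both `u ≤_RF v` and `u ≤_CF v` hold iff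
`u` is principal or `u`, `v` are isomorphic. -/
theorem result :
    (∀ u v, LeCF u v → LeC u v) ∧
    (∀ u, ¬ Principal u → ∃ v, LeRF u v ∧ LeC u v ∧ ¬ LeCF u v) ∧
    (∃ u v, LeRF u v ∧ LeC u v ∧ ¬ LeCF u v) ∧
    (∀ u v, LeCF u v → Principal u ∨ LeRF v u) ∧
    (∀ u v, (LeRF u v ∧ LeCF u v) ↔ (Principal u ∨ ∃ e : Equiv.Perm ℕ, u.map e = v)) := by
  refine ⟨fun u v => leC_of_leCF, exists_square, ?_, fun u v h => leRF_of_inX (inX_of_leCF h),
    both_iff⟩
  have hnp : ¬ Principal (hyperfilter ℕ : βω) := by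
    rintro ⟨n, hn⟩
    have h1 : ({n} : Set ℕ) ∈ (hyperfilter ℕ : βω) := by
      rw [hn]; exact Ultrafilter.mem_pure.mpr rfl
    exact notMem_hyperfilter_of_finite (finite_singleton n) h1
  obtain ⟨v, hv⟩ := exists_square _ hnp
  exact ⟨_, v, hv⟩

end Pool.Agent.Results.MP_254ca6_gt.ProperInclusions
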